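import Mathlib

/-!
# Cofin and cofin plus of Borel sigma-ideals
-/

set_option autoImplicit false

namespace Pool.Agent.Results.MP_66ab92_lc.CofinPlus

open Set

/-- The Cantor space (with the product topology). -/
abbrev Cantor : Type := ℕ → Bool

/-- `I` is a sigma-ideal on the Cantor space. -/
structure IsSigmaIdeal (I : Set (Set Cantor)) : Prop where
  empty_mem : ∅ ∈ I
  subset_mem : ∀ A B : Set Cantor, B ∈ I → A ⊆ B → A ∈ I
  iUnion_mem : ∀ A : ℕ → Set Cantor, (∀ n, A n ∈ I) → (⋃ n, A n) ∈ I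

/-- `I` is a Borel sigma-ideal on the Cantor space: a sigma-ideal each of whose members is
contained in a Borel set belonging to it. -/
def IsBorelSigmaIdeal (I : Set (Set Cantor)) : Prop :=
  IsSigmaIdeal I ∧ ∀ A ∈ I, ∃ B ∈ I, A ⊆ B ∧ @MeasurableSet Cantor (borel Cantor) B

/-- `γ` is a limit ordinal and `F` is a strictly increasing sequence of length `γ` of sigma-ideals
with union `I`. -/
def IsSeq (I : Set (Set Cantor)) (γ : Ordinal.{0}) (F : Ordinal.{0} → Set (Set Cantor)) : Prop :=
  Order.IsSuccLimit γ ∧ (∀ α < γ, IsSigmaIdeal (F α)) ∧ I = (⋃ α < γ, F α) ∧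
    ∀ α β, α < β → β < γ → F α ⊂ F β

/-- `cofin I` (`⊤` if no sequence exists) -/
noncomputable def cofin (I : Set (Set Cantor)) : WithTop Ordinal.{0} :=
  ⨅ (γ : Ordinal.{0}) (_ : ∃ F, IsSeq I γ F), (γ : WithTop Ordinal.{0})

/-- `cofin⁺ I` (`⊤` if no sequence exists): every singleton belongs to the first ideal. -/
noncomputable def cofinPlus (I : Set (Set Cantor)) : WithTop Ordinal.{0} :=
  ⨅ (γ : Ordinal.{0}) (_ : ∃ F, IsSeq I γ F ∧ ∀ x : Cantor, {x} ∈ F 0), (γ : WithTop Ordinal.{0})

/-! ### Basic facts -/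

theorem IsSigmaIdeal.union {I : Set (Set Cantor)} (h : IsSigmaIdeal I) {A B : Set Cantor}
    (hA : A ∈ I) (hB : B ∈ I) : A ∪ B ∈ I := by
  have h1 := h.iUnion_mem (fun n => if n = 0 then A else B) (by
    intro n
    by_cases hn : n = 0
    · simpa [hn] using hA
    · simpa [hn] using hB)
  refine h.subset_mem _ _ h1 ?_
  rintro x (hx | hx)
  · exact mem_iUnion.2 ⟨0, by simpa using hx⟩
  · exact mem_iUnion.2 ⟨1, by simpa using hx⟩

theorem IsSigmaIdeal.countable {I : Set (Set Cantor)} (h : IsSigmaIdeal I)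
    (hs : ∀ x : Cantor, {x} ∈ I) {A : Set Cantor} (hA : A.Countable) : A ∈ I := by
  rcases A.eq_empty_or_nonempty with rfl | hne
  · exact h.empty_mem
  · obtain ⟨f, rfl⟩ := hA.exists_eq_range hne
    have := h.iUnion_mem (fun n => {f n}) fun n => hs _
    refine h.subset_mem _ _ this ?_
    rintro x ⟨n, rfl⟩
    exact mem_iUnion.2 ⟨n, rfl⟩

/-- The length of a sequence of sigma-ideals is at least `ω₁`. -/
theorem omega_one_le {I : Set (Set Cantor)} (hI : IsSigmaIdeal I) {γ : Ordinal.{0}}
    {F : Ordinal.{0} → Set (Set Cantor)} (h : IsSeq I γ F) : Ordinal.omega 1 ≤ γ := by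
  by_contra hlt
  push Not at hlt
  obtain ⟨hlim, hid, hun, hst⟩ := h
  have hc : (Iio γ).Countable := by
    rw [Cardinal.countable_iff_lt_aleph_one, Cardinal.mk_Iio_ordinal]
    have h1 : γ.card < Cardinal.aleph 1 := Cardinal.lt_omega_iff_card_lt.1 hlt
    have h2 := Cardinal.lift_lt.{0, 1}.2 h1
    simpa using h2
  have hne : (Iio γ).Nonempty := ⟨0, hlim.bot_lt⟩
  obtain ⟨a, ha⟩ := hc.exists_eq_range hne
  have ha1 : ∀ n, a n < γ := fun n => by
    have : a n ∈ Iio γ := by rw [ha]; exact ⟨n, rfl⟩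
    exact this
  have hs : ∀ n, ∃ B, B ∈ F (Order.succ (a n)) ∧ B ∉ F (a n) := by
    intro n
    have h1 := hst (a n) (Order.succ (a n)) (Order.lt_succ _) (hlim.succ_lt (ha1 n))
    obtain ⟨B, hB, hB'⟩ := Set.exists_of_ssubset h1
    exact ⟨B, hB, hB'⟩
  choose B hB hB' using hs
  have hBI : ∀ n, B n ∈ I := by
    intro n
    rw [hun]
    exact mem_iUnion₂.2 ⟨_, hlim.succ_lt (ha1 n), hB n⟩
  have hU := hI.iUnion_mem B hBI
  rw [hun] at hU
  obtain ⟨β, hβ, hU⟩ := mem_iUnion₂.1 hU
  have hβ' : β ∈ range a := by rw [← ha]; exact hβ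
  obtain ⟨m, rfl⟩ := hβ'
  exact hB' m ((hid _ hβ).subset_mem _ _ hU (subset_iUnion B m))

/-! ### The sum of the ideal of countable sets and an ideal -/

/-- prepend a digit -/
def cons (b : Bool) (x : Cantor) : Cantor := fun n => Nat.casesOn n b x

theorem cons_zero (b : Bool) (x : Cantor) : cons b x 0 = b := rfl

theorem cons_succ (b : Bool) (x : Cantor) (n : ℕ) : cons b x (n + 1) = x n := rfl

theorem cons_injective (b : Bool) : Function.Injective (cons b) := by
  intro x y h
  funext n
  have := congrFun h (n + 1)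
  simpa [cons_succ] using this

/-- the shift -/
def tl (x : Cantor) : Cantor := fun n => x (n + 1)

theorem cons_tl (x : Cantor) : cons (x 0) (tl x) = x := by
  funext n
  cases n <;> rfl

theorem tl_cons (b : Bool) (x : Cantor) : tl (cons b x) = x := rfl

/-- The sum of the ideal of countable sets and of `J`. -/
def sm (J : Set (Set Cantor)) : Set (Set Cantor) :=
  {A | (cons false ⁻¹' A).Countable ∧ cons true ⁻¹' A ∈ J}

theorem sm_sigma {J : Set (Set Cantor)} (hJ : IsSigmaIdeal J) : IsSigmaIdeal (sm J) := by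
  refine ⟨⟨by simp, by simpa using hJ.empty_mem⟩, ?_, ?_⟩
  · rintro A B ⟨h1, h2⟩ hAB
    exact ⟨h1.mono (preimage_mono hAB), hJ.subset_mem _ _ h2 (preimage_mono hAB)⟩
  · intro A hA
    refine ⟨?_, ?_⟩
    · rw [preimage_iUnion]
      exact countable_iUnion fun n => (hA n).1
    · rw [preimage_iUnion]
      exact hJ.iUnion_mem _ fun n => (hA n).2

theorem image_true_preimage_false (A : Set Cantor) : cons false ⁻¹' (cons true '' A) = ∅ := by
  ext x
  simp only [mem_preimage, mem_image, mem_empty_iff_false, iff_false, not_exists, not_and]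
  intro y _ h
  have := congrFun h 0
  simp [cons_zero] at this

theorem image_false_preimage_true (A : Set Cantor) : cons true ⁻¹' (cons false '' A) = ∅ := by
  ext x
  simp only [mem_preimage, mem_image, mem_empty_iff_false, iff_false, not_exists, not_and]
  intro y _ h
  have := congrFun h 0
  simp [cons_zero] at this

theorem eq_union (A : Set Cantor) :
    A = cons false '' (cons false ⁻¹' A) ∪ cons true '' (cons true ⁻¹' A) := by
  ext x
  constructor
  · intro hx
    have h := cons_tl x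
    cases hb : x 0 with
    | false =>
      left
      rw [hb] at h
      exact ⟨tl x, by rw [mem_preimage, h]; exact hx, h⟩
    | true =>
      right
      rw [hb] at h
      exact ⟨tl x, by rw [mem_preimage, h]; exact hx, h⟩
  · rintro (⟨y, hy, rfl⟩ | ⟨y, hy, rfl⟩) <;> exact hy

theorem image_mem_sm {J : Set (Set Cantor)} {A : Set Cantor} :
    cons true '' A ∈ sm J ↔ A ∈ J := by
  unfold sm
  rw [mem_ofPred_eq, image_true_preimage_false, preimage_image_eq _ (cons_injective true)]
  simp

theorem sm_borel {J : Set (Set Cantor)} (hJ : IsBorelSigmaIdeal J) : IsBorelSigmaIdeal (sm J) := by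
  refine ⟨sm_sigma hJ.1, ?_⟩
  rintro A ⟨h1, h2⟩
  obtain ⟨B, hB, hAB, hm⟩ := hJ.2 _ h2
  refine ⟨cons false '' (cons false ⁻¹' A) ∪ {x | x 0 = true ∧ tl x ∈ B}, ⟨?_, ?_⟩, ?_, ?_⟩
  · rw [preimage_union, preimage_image_eq _ (cons_injective false)]
    refine h1.union ?_
    have : cons false ⁻¹' {x | x 0 = true ∧ tl x ∈ B} = ∅ := by
      ext x
      simp [cons_zero]
    rw [this]
    exact countable_empty
  · rw [preimage_union, image_false_preimage_true, empty_union]
    have : cons true ⁻¹' {x | x 0 = true ∧ tl x ∈ B} = B := by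
      ext x
      simp [cons_zero, tl_cons]
    rw [this]
    exact hB
  · intro x hx
    have hx' := hx
    rw [eq_union A] at hx'
    rcases hx' with h | ⟨y, hy, rfl⟩
    · exact Or.inl h
    · exact Or.inr ⟨rfl, hAB hy⟩
  · letI : MeasurableSpace Cantor := borel Cantor
    have _ : BorelSpace Cantor := ⟨rfl⟩
    refine MeasurableSet.union ?_ ?_
    · exact (h1.image _).measurableSet
    · have hc : Continuous tl := continuous_pi fun n => continuous_apply (n + 1)
      have h0 : Measurable fun x : Cantor => x 0 :=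
        (continuous_apply (0 : ℕ) : Continuous fun x : Cantor => x 0).measurable
      have e : {x : Cantor | x 0 = true ∧ tl x ∈ B} = (fun x : Cantor => x 0) ⁻¹' {true} ∩ tl ⁻¹' B := by
        ext x; simp
      rw [e]
      exact (h0 (measurableSet_singleton _)).inter (hc.measurable hm)

/-- an injection of `ω₁` into the Cantor space -/
theorem exists_inj : ∃ e : Ordinal.{0} → Cantor, InjOn e (Iio (Ordinal.omega 1)) := by
  have h : Cardinal.lift.{0, 1} (Cardinal.mk (Iio (Ordinal.omega.{0} 1))) ≤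
      Cardinal.lift.{1, 0} (Cardinal.mk Cantor) := by
    rw [Cardinal.mk_Iio_ordinal]
    have h1 : Cardinal.mk Cantor = Cardinal.continuum := by
      simp [Cantor]
    rw [h1]
    have h2 : Cardinal.aleph 1 ≤ Cardinal.continuum := Cardinal.aleph_one_le_continuum
    simpa using Cardinal.lift_le.{1, 0}.2 h2
  obtain ⟨f⟩ := Cardinal.lift_mk_le'.1 h
  classical
  refine ⟨fun α => if hα : α ∈ Iio (Ordinal.omega.{0} 1) then f ⟨α, hα⟩ else fun _ => true, ?_⟩
  intro α hα β hβ h
  simp only [dif_pos hα, dif_pos hβ] at h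
  have := f.injective h
  exact congrArg Subtype.val this

/-- a countable set of countable ordinals is bounded -/
theorem bounded {s : Set Ordinal.{0}} (hs : s.Countable) (h : ∀ α ∈ s, α < Ordinal.omega 1) :
    ∃ β < Ordinal.omega 1, ∀ α ∈ s, α < β := by
  rcases s.eq_empty_or_nonempty with rfl | hne
  · exact ⟨0, Ordinal.omega_pos 1, by simp⟩
  · obtain ⟨f, rfl⟩ := hs.exists_eq_range hne
    have h1 : (⨆ n, Order.succ (f n)) < Ordinal.omega 1 := by
      have h2 := @Cardinal.iSup_lt_ord_lift_of_isRegular ℕ (fun n => Order.succ (f n))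
        (Cardinal.aleph 1) Cardinal.isRegular_aleph_one (by
          simp)
      rw [Cardinal.ord_aleph] at h2
      exact h2 fun n => (Cardinal.isSuccLimit_omega 1).succ_lt (h _ ⟨n, rfl⟩)
    refine ⟨_, h1, ?_⟩
    rintro _ ⟨n, rfl⟩
    exact lt_of_lt_of_le (Order.lt_succ _) (Ordinal.le_iSup (fun n => Order.succ (f n)) n)

theorem sm_seq {J : Set (Set Cantor)} (hJ : IsSigmaIdeal J) :
    ∃ F, IsSeq (sm J) (Ordinal.omega 1) F := by
  obtain ⟨e, he⟩ := exists_inj
  refine ⟨fun α => {A | A ∈ sm J ∧ ∀ β, α ≤ β → β < Ordinal.omega 1 → cons false (e β) ∉ A},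
    Cardinal.isSuccLimit_omega 1, ?_, ?_, ?_⟩
  · intro α _
    refine ⟨⟨(sm_sigma hJ).empty_mem, by simp⟩, ?_, ?_⟩
    · rintro A B ⟨h1, h2⟩ hAB
      exact ⟨(sm_sigma hJ).subset_mem _ _ h1 hAB, fun β h3 h4 h5 => h2 β h3 h4 (hAB h5)⟩
    · intro A hA
      refine ⟨(sm_sigma hJ).iUnion_mem _ fun n => (hA n).1, fun β h3 h4 h5 => ?_⟩
      obtain ⟨n, hn⟩ := mem_iUnion.1 h5
      exact (hA n).2 β h3 h4 hn
  · apply Subset.antisymm
    · intro A hA
      have hc : (Iio (Ordinal.omega.{0} 1) ∩ {β | cons false (e β) ∈ A}).Countable := by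
        have h1 := hA.1
        refine Set.MapsTo.countable_of_injOn (f := e) (t := cons false ⁻¹' A) ?_ ?_ h1
        · rintro β ⟨_, hβ⟩
          exact hβ
        · exact he.mono inter_subset_left
      obtain ⟨β, hβ, hb⟩ := bounded hc fun α hα => hα.1
      refine mem_iUnion₂.2 ⟨β, hβ, hA, fun α h3 h4 h5 => ?_⟩
      exact absurd (hb α ⟨h4, h5⟩) (not_lt.2 h3)
    · intro A hA
      obtain ⟨α, _, hA⟩ := mem_iUnion₂.1 hA
      exact hA.1
  · intro α β hαβ hβ
    refine ⟨fun A hA => ⟨hA.1, fun δ h3 h4 => hA.2 δ (hαβ.le.trans h3) h4⟩, fun hsub => ?_⟩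
    have h1 : ({cons false (e α)} : Set Cantor) ∈ {A | A ∈ sm J ∧
        ∀ δ, β ≤ δ → δ < Ordinal.omega 1 → cons false (e δ) ∉ A} := by
      refine ⟨⟨?_, ?_⟩, ?_⟩
      · have : cons false ⁻¹' ({cons false (e α)} : Set Cantor) = {e α} := by
          ext x
          simp [(cons_injective false).eq_iff]
        rw [this]
        exact countable_singleton _
      · have : cons true ⁻¹' ({cons false (e α)} : Set Cantor) = ∅ := by
          ext x
          simp only [mem_preimage, mem_singleton_iff, mem_empty_iff_false, iff_false]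
          intro h
          have := congrFun h 0
          simp [cons_zero] at this
        rw [this]
        exact hJ.empty_mem
      · intro δ h3 h4 h5
        have h6 : e δ = e α := cons_injective false h5
        have h7 : δ = α := he h4 (hαβ.trans hβ) h6
        subst h7
        exact absurd h3 (not_le.2 hαβ)
    have h2 := (hsub h1).2 α le_rfl (hαβ.trans hβ)
    exact h2 rfl

theorem cofin_sm {J : Set (Set Cantor)} (hJ : IsSigmaIdeal J) :
    cofin (sm J) = ((Ordinal.omega 1 : Ordinal.{0}) : WithTop Ordinal.{0}) := by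
  apply le_antisymm
  · exact iInf₂_le (f := fun (γ : Ordinal.{0}) (_ : ∃ F, IsSeq (sm J) γ F) => (γ : WithTop Ordinal.{0}))
      (Ordinal.omega 1) (sm_seq hJ)
  · refine le_iInf₂ fun γ hγ => ?_
    obtain ⟨F, hF⟩ := hγ
    exact WithTop.coe_le_coe.2 (omega_one_le (sm_sigma hJ) hF)

theorem plus_iff {J : Set (Set Cantor)} (γ : Ordinal.{0}) :
    (∃ F, IsSeq (sm J) γ F ∧ ∀ x : Cantor, {x} ∈ F 0) ↔
      ∃ F, IsSeq J γ F ∧ ∀ x : Cantor, {x} ∈ F 0 := by
  constructor
  · rintro ⟨F, ⟨hlim, hid, hun, hst⟩, hs⟩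
    have hmono : ∀ α β, α ≤ β → β < γ → F α ⊆ F β := by
      intro α β h1 h2
      rcases h1.eq_or_lt with rfl | h1
      · exact Subset.rfl
      · exact (hst α β h1 h2).1
    have h0 : (0 : Ordinal.{0}) < γ := hlim.bot_lt
    refine ⟨fun α => {A | cons true '' A ∈ F α}, ⟨hlim, ?_, ?_, ?_⟩, ?_⟩
    · intro α hα
      refine ⟨by simpa using (hid α hα).empty_mem, ?_, ?_⟩
      · intro A B hB hAB
        exact (hid α hα).subset_mem _ _ hB (image_mono hAB)
      · intro A hA
        rw [mem_ofPred_eq, image_iUnion]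
        exact (hid α hα).iUnion_mem _ hA
    · ext A
      rw [← image_mem_sm (J := J), hun]
      simp only [mem_iUnion, mem_ofPred_eq]
    · intro α β hαβ hβ
      refine ⟨fun A hA => (hst α β hαβ hβ).1 hA, fun hsub => ?_⟩
      obtain ⟨B, hB, hB'⟩ := exists_of_ssubset (hst α β hαβ hβ)
      apply hB'
      rw [eq_union B]
      have hα := hαβ.trans hβ
      have hBI : B ∈ sm J := by
        rw [hun]
        exact mem_iUnion₂.2 ⟨β, hβ, hB⟩
      refine (hid α hα).union ?_ ?_
      · exact (hid α hα).countable (fun x => hmono 0 α (bot_le : (0 : Ordinal.{0}) ≤ α) hα (hs x)) (hBI.1.image _)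
      · refine hsub ?_
        refine (hid β hβ).subset_mem _ _ hB ?_
        exact image_preimage_subset _ _
    · intro x
      have : cons true '' ({x} : Set Cantor) = {cons true x} := image_singleton
      rw [mem_ofPred_eq, this]
      exact hs _
  · rintro ⟨F, ⟨hlim, hid, hun, hst⟩, hs⟩
    refine ⟨fun α => sm (F α), ⟨hlim, fun α hα => sm_sigma (hid α hα), ?_, ?_⟩, ?_⟩
    · ext A
      constructor
      · rintro ⟨h1, h2⟩
        rw [hun] at h2
        obtain ⟨α, hα, h2⟩ := mem_iUnion₂.1 h2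
        exact mem_iUnion₂.2 ⟨α, hα, h1, h2⟩
      · intro h
        obtain ⟨α, hα, h1, h2⟩ := mem_iUnion₂.1 h
        refine ⟨h1, ?_⟩
        rw [hun]
        exact mem_iUnion₂.2 ⟨α, hα, h2⟩
    · intro α β hαβ hβ
      refine ⟨fun A hA => ⟨hA.1, (hst α β hαβ hβ).1 hA.2⟩, fun hsub => ?_⟩
      obtain ⟨B, hB, hB'⟩ := exists_of_ssubset (hst α β hαβ hβ)
      exact hB' (image_mem_sm.1 (hsub (image_mem_sm.2 hB)))
    · intro x
      have h0 : (0 : Ordinal.{0}) < γ := hlim.bot_lt
      have hc : IsSigmaIdeal (F 0) := hid 0 h0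
      refine ⟨?_, ?_⟩
      · exact ((countable_singleton x).preimage_of_injOn (cons_injective false).injOn)
      · refine hc.countable hs ?_
        exact ((countable_singleton x).preimage_of_injOn (cons_injective true).injOn)

theorem cofinPlus_sm (J : Set (Set Cantor)) : cofinPlus (sm J) = cofinPlus J := by
  unfold cofinPlus
  simp only [plus_iff]

/-- The ideal of countable sets is a Borel sigma-ideal. -/
theorem countable_borel : IsBorelSigmaIdeal {A : Set Cantor | A.Countable} := by
  refine ⟨⟨countable_empty, fun A B hB hAB => hB.mono hAB, fun A hA => countable_iUnion hA⟩, ?_⟩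
  intro A hA
  refine ⟨A, hA, Subset.rfl, ?_⟩
  let _ : MeasurableSpace Cantor := borel Cantor
  have _ : BorelSpace Cantor := ⟨rfl⟩
  exact Countable.measurableSet hA

theorem cofinPlus_countable : cofinPlus {A : Set Cantor | A.Countable} = ⊤ := by
  unfold cofinPlus
  refine iInf₂_eq_top.2 ?_
  rintro γ ⟨F, ⟨hlim, hid, hun, hst⟩, hs⟩
  exfalso
  have h0 : (0 : Ordinal.{0}) < γ := hlim.bot_lt
  have h1 : Order.succ (0 : Ordinal.{0}) < γ := hlim.succ_lt h0
  obtain ⟨B, hB, hB'⟩ := exists_of_ssubset (hst 0 _ (Order.lt_succ _) h1)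
  apply hB'
  refine (hid 0 h0).countable hs ?_
  have : B ∈ {A : Set Cantor | A.Countable} := by
    rw [hun]
    exact mem_iUnion₂.2 ⟨_, h1, hB⟩
  exact this

theorem not_countable_univ : ¬ (univ : Set Cantor).Countable := by
  have h3 : Cardinal.mk Cantor = Cardinal.continuum := by simp [Cantor]
  intro h
  have h1 := Set.countable_univ_iff.1 h
  have h2 : Cardinal.mk Cantor ≤ Cardinal.aleph0 := Cardinal.mk_le_aleph0_iff.2 h1
  rw [h3] at h2
  exact absurd Cardinal.aleph0_lt_continuum (not_lt.2 h2)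

/-- **Part (c).** In ZFC there is a (proper) Borel sigma-ideal on the Cantor space which contains
all singletons and satisfies `cofin I < cofin⁺ I`. More precisely, for every Borel sigma-ideal `J`
there is a proper Borel sigma-ideal `I` with `cofin I = ω₁` and `cofin⁺ I = cofin⁺ J`, and `I`
contains all singletons if `J` does; and `cofin⁺` of the ideal of countable sets is `∞`. -/
theorem result :
    (∃ I : Set (Set Cantor), IsBorelSigmaIdeal I ∧ (∀ x : Cantor, {x} ∈ I) ∧ univ ∉ I ∧
      cofin I = ((Ordinal.omega 1 : Ordinal.{0}) : WithTop Ordinal.{0}) ∧ cofinPlus I = ⊤) ∧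
    ∀ J : Set (Set Cantor), IsBorelSigmaIdeal J → ∃ I : Set (Set Cantor), IsBorelSigmaIdeal I ∧
      ((∀ x : Cantor, {x} ∈ J) → ∀ x : Cantor, {x} ∈ I) ∧ univ ∉ I ∧
      cofin I = ((Ordinal.omega 1 : Ordinal.{0}) : WithTop Ordinal.{0}) ∧
      cofinPlus I = cofinPlus J := by
  have key : ∀ J : Set (Set Cantor), IsBorelSigmaIdeal J → ∃ I : Set (Set Cantor),
      IsBorelSigmaIdeal I ∧ ((∀ x : Cantor, {x} ∈ J) → ∀ x : Cantor, {x} ∈ I) ∧ univ ∉ I ∧
      cofin I = ((Ordinal.omega 1 : Ordinal.{0}) : WithTop Ordinal.{0}) ∧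
      cofinPlus I = cofinPlus J := by
    intro J hJ
    refine ⟨sm J, sm_borel hJ, ?_, ?_, cofin_sm hJ.1, cofinPlus_sm J⟩
    · intro hs x
      refine ⟨?_, ?_⟩
      · exact ((countable_singleton x).preimage_of_injOn (cons_injective false).injOn)
      · refine hJ.1.countable hs ?_
        exact ((countable_singleton x).preimage_of_injOn (cons_injective true).injOn)
    · rintro ⟨h, _⟩
      rw [preimage_univ] at h
      exact not_countable_univ h
  refine ⟨?_, key⟩
  obtain ⟨I, h1, h2, h3, h4, h5⟩ := key _ countable_borel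
  exact ⟨I, h1, h2 fun x => countable_singleton x, h3, h4, h5.trans cofinPlus_countable⟩

end Pool.Agent.Results.MP_66ab92_lc.CofinPlus
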