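import Mathlib

/-!
# The invariant cofin star of an ideal is its additivity
-/

set_option autoImplicit false

namespace Pool.Agent.Results.MP_66ab92_lc.CofinStar

open Set

universe u

/-- `I` is an ideal on `X`: closed under finite unions and under taking subsets. -/
structure IsIdeal {X : Type u} (I : Set (Set X)) : Prop where
  empty_mem : ∅ ∈ I
  subset_mem : ∀ A B : Set X, B ∈ I → A ⊆ B → A ∈ I
  union_mem : ∀ A B : Set X, A ∈ I → B ∈ I → A ∪ B ∈ I

/-- `add I`, the least size of a subfamily of `I` whose union does not belong to `I` (it exists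
when the union of `I` does not belong to `I`). -/
noncomputable def add {X : Type u} (I : Set (Set X)) : Cardinal.{u} :=
  sInf {c | ∃ A : Set (Set X), A ⊆ I ∧ Cardinal.mk A = c ∧ ⋃₀ A ∉ I}

/-- `γ` is a limit ordinal and `F` is a strictly increasing sequence of length `γ` of families
closed under taking subsets, with union `I`. -/
def IsSeq {X : Type u} (I : Set (Set X)) (γ : Ordinal.{u}) (F : Ordinal.{u} → Set (Set X)) :
    Prop :=
  Order.IsSuccLimit γ ∧ (∀ α < γ, ∀ A B : Set X, B ∈ F α → A ⊆ B → A ∈ F α) ∧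
    I = (⋃ α < γ, F α) ∧ ∀ α β, α < β → β < γ → F α ⊂ F β

/-- `cofin* I` (`⊤` if no sequence exists) -/
noncomputable def cofinStar {X : Type u} (I : Set (Set X)) : WithTop Ordinal.{u} :=
  ⨅ (γ : Ordinal.{u}) (_ : ∃ F, IsSeq I γ F), (γ : WithTop Ordinal.{u})

variable {X : Type u} {I : Set (Set X)}

theorem add_spec (h : ⋃₀ I ∉ I) : ∃ A : Set (Set X), A ⊆ I ∧ Cardinal.mk A = add I ∧ ⋃₀ A ∉ I := by
  have hne : {c | ∃ A : Set (Set X), A ⊆ I ∧ Cardinal.mk A = c ∧ ⋃₀ A ∉ I}.Nonempty :=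
    ⟨Cardinal.mk I, I, Subset.rfl, rfl, h⟩
  exact csInf_mem hne

theorem mem_of_lt {A : Set (Set X)} (hA : A ⊆ I) (hc : Cardinal.mk A < add I) : ⋃₀ A ∈ I := by
  by_contra hn
  have h1 : Cardinal.mk A ∈ {c | ∃ A : Set (Set X), A ⊆ I ∧ Cardinal.mk A = c ∧ ⋃₀ A ∉ I} :=
    ⟨A, hA, rfl, hn⟩
  exact absurd (csInf_le' h1) (not_le.2 hc)

theorem add_infinite (hI : IsIdeal I) (h : ⋃₀ I ∉ I) : Cardinal.aleph0 ≤ add I := by
  by_contra hn
  push Not at hn
  obtain ⟨A, hA, hc, hU⟩ := add_spec h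
  rw [← hc, Cardinal.mk_lt_aleph0_iff] at hn
  have hf : A.Finite := Set.toFinite A
  apply hU
  clear hc hn hU
  induction A, hf using Set.Finite.induction_on with
  | empty => simpa using hI.empty_mem
  | insert _ _ ih =>
    rw [sUnion_insert]
    exact hI.union_mem _ _ (hA (mem_insert _ _)) (ih ((subset_insert _ _).trans hA))

theorem le_length {γ : Ordinal.{u}} {F : Ordinal.{u} → Set (Set X)}
    (h : IsSeq I γ F) : (add I).ord ≤ γ := by
  by_contra hlt
  push Not at hlt
  obtain ⟨hlim, hid, hun, hst⟩ := h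
  have hcard : γ.card < add I := Cardinal.lt_ord.1 hlt
  have hs : ∀ α : Iio γ, ∃ B, B ∈ F (Order.succ α.1) ∧ B ∉ F α.1 := by
    intro α
    obtain ⟨B, hB, hB'⟩ := exists_of_ssubset (hst α.1 _ (Order.lt_succ _) (hlim.succ_lt α.2))
    exact ⟨B, hB, hB'⟩
  choose B hB hB' using hs
  have h1 : range B ⊆ I := by
    rintro _ ⟨α, rfl⟩
    rw [hun]
    exact mem_iUnion₂.2 ⟨_, hlim.succ_lt α.2, hB α⟩
  have h2 : Cardinal.mk (range B) < add I := by
    refine lt_of_le_of_lt ?_ hcard
    have h3 := @Cardinal.mk_range_le_lift (Iio γ) (Set X) B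
    rw [Cardinal.mk_Iio_ordinal] at h3
    have h4 : Cardinal.lift.{u + 1, u} (Cardinal.mk (range B)) ≤
        Cardinal.lift.{u + 1, u} γ.card := by simpa using h3
    exact Cardinal.lift_le.1 h4
  have h3 := mem_of_lt h1 h2
  rw [hun] at h3
  obtain ⟨β, hβ, h3⟩ := mem_iUnion₂.1 h3
  exact hB' ⟨β, hβ⟩ (hid β hβ _ _ h3 (subset_sUnion_of_mem ⟨_, rfl⟩))

/-- the strictly increasing sequence -/
noncomputable def seq (a : Ordinal.{u} → Set X) (g : Set X → Set X) (α : Ordinal.{u}) : Set X :=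
  g ((⋃ β : Iio α, seq a g β.1) ∪ a α)
termination_by α
decreasing_by exact β.2

theorem exists_step (h : ⋃₀ I ∉ I) (hI : IsIdeal I) :
    ∃ g : Set X → Set X, ∀ T ∈ I, g T ∈ I ∧ T ⊆ g T ∧ ¬ g T ⊆ T := by
  have h1 : ∀ T : Set X, ∃ S : Set X, T ∈ I → S ∈ I ∧ T ⊆ S ∧ ¬ S ⊆ T := by
    intro T
    by_cases hT : T ∈ I
    · have h2 : ∃ E ∈ I, ¬ E ⊆ T := by
        by_contra hn
        push Not at hn
        exact h (hI.subset_mem _ _ hT (sUnion_subset hn))
      obtain ⟨E, hE, hET⟩ := h2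
      exact ⟨T ∪ E, fun _ => ⟨hI.union_mem _ _ hT hE, subset_union_left,
        fun h3 => hET (subset_union_right.trans h3)⟩⟩
    · exact ⟨T, fun h3 => absurd h3 hT⟩
  choose g hg using h1
  exact ⟨g, hg⟩

theorem exists_seq (hI : IsIdeal I) (h : ⋃₀ I ∉ I) : ∃ F, IsSeq I (add I).ord F := by
  obtain ⟨A, hA, hc, hU⟩ := add_spec h
  obtain ⟨g, hg⟩ := exists_step h hI
  have hinf := add_infinite hI h
  have he : Cardinal.lift.{u + 1, u} (Cardinal.mk A) =
      Cardinal.lift.{u, u + 1} (Cardinal.mk (Iio (add I).ord)) := by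
    rw [Cardinal.mk_Iio_ordinal, hc]
    simp
  obtain ⟨e⟩ := Cardinal.lift_mk_eq'.1 he
  classical
  set a : Ordinal.{u} → Set X := fun α => if hα : α ∈ Iio (add I).ord then (e.symm ⟨α, hα⟩).1
    else ∅ with ha
  have haI : ∀ α, a α ∈ I := by
    intro α
    simp only [ha]
    split_ifs with hα
    · exact hA (e.symm ⟨α, hα⟩).2
    · exact hI.empty_mem
  have hmem : ∀ α, α < (add I).ord → seq a g α ∈ I ∧
      ((⋃ β : Iio α, seq a g β.1) ∪ a α) ∈ I := by
    intro α
    induction α using WellFoundedLT.induction with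
    | ind α ih =>
      intro hα
      have h1 : (⋃ β : Iio α, seq a g β.1) ∈ I := by
        have h2 : range (fun β : Iio α => seq a g β.1) ⊆ I := by
          rintro _ ⟨β, rfl⟩
          exact (ih β.1 β.2 (lt_trans β.2 hα)).1
        have h3 : Cardinal.mk (range fun β : Iio α => seq a g β.1) < add I := by
          refine lt_of_le_of_lt ?_ (Cardinal.lt_ord.1 hα)
          have h3 := @Cardinal.mk_range_le_lift (Iio α) (Set X) (fun β : Iio α => seq a g β.1)
          rw [Cardinal.mk_Iio_ordinal] at h3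
          have h4 : Cardinal.lift.{u + 1, u}
              (Cardinal.mk (range fun β : Iio α => seq a g β.1)) ≤
              Cardinal.lift.{u + 1, u} α.card := by simpa using h3
          exact Cardinal.lift_le.1 h4
        have h4 := mem_of_lt h2 h3
        rwa [sUnion_range] at h4
      have h2 := hI.union_mem _ _ h1 (haI α)
      refine ⟨?_, h2⟩
      rw [seq]
      exact (hg _ h2).1
  have hsub : ∀ α β, α < β → β < (add I).ord → seq a g α ⊆ seq a g β := by
    intro α β hαβ hβ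
    conv_rhs => rw [seq]
    refine Subset.trans ?_ (hg _ (hmem β hβ).2).2.1
    refine Subset.trans ?_ subset_union_left
    exact subset_iUnion (fun δ : Iio β => seq a g δ.1) ⟨α, hαβ⟩
  have hns : ∀ α β, α < β → β < (add I).ord → ¬ seq a g β ⊆ seq a g α := by
    intro α β hαβ hβ hs
    apply (hg _ (hmem β hβ).2).2.2
    have h1 : seq a g β = g ((⋃ δ : Iio β, seq a g δ.1) ∪ a β) := by rw [seq]
    rw [← h1]
    refine hs.trans ?_
    refine Subset.trans ?_ subset_union_left
    exact subset_iUnion (fun δ : Iio β => seq a g δ.1) ⟨α, hαβ⟩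
  have hasub : ∀ α < (add I).ord, a α ⊆ seq a g α := by
    intro α hα
    rw [seq]
    exact subset_union_right.trans (hg _ (hmem α hα).2).2.1
  refine ⟨fun α => {B | B ∈ I ∧ ¬ seq a g α ⊆ B}, Cardinal.isSuccLimit_ord hinf, ?_, ?_, ?_⟩
  · rintro α _ B C ⟨h1, h2⟩ hBC
    exact ⟨hI.subset_mem _ _ h1 hBC, fun h3 => h2 (h3.trans hBC)⟩
  · apply Subset.antisymm
    · intro B hB
      by_contra hn
      apply hU
      refine hI.subset_mem _ _ hB ?_
      refine sUnion_subset fun C hC => ?_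
      have hα : (e ⟨C, hC⟩).1 ∈ Iio (add I).ord := (e ⟨C, hC⟩).2
      have h1 : a (e ⟨C, hC⟩).1 = C := by
        simp only [ha, dif_pos hα]
        simp
      have h2 : seq a g (e ⟨C, hC⟩).1 ⊆ B := by
        by_contra h3
        exact hn (mem_iUnion₂.2 ⟨_, hα, hB, h3⟩)
      have h3 := (hasub _ hα).trans h2
      rwa [h1] at h3
    · intro B hB
      obtain ⟨α, _, hB⟩ := mem_iUnion₂.1 hB
      exact hB.1
  · intro α β hαβ hβ
    refine ⟨fun B hB => ⟨hB.1, fun h1 => hB.2 ((hsub α β hαβ hβ).trans h1)⟩, fun hs => ?_⟩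
    have h1 : seq a g α ∈ {B | B ∈ I ∧ ¬ seq a g β ⊆ B} :=
      ⟨(hmem α (hαβ.trans hβ)).1, hns α β hαβ hβ⟩
    exact (hs h1).2 Subset.rfl

/-- **In ZFC, `cofin* I = add I`** for every non-principal ideal `I` on a set (that is, every
ideal which does not contain its union), in particular for every non-principal Borel sigma-ideal
on the Cantor space. So part (a) of the question asks whether `add I < cofin⁻ I` is consistent. -/
theorem result {X : Type u} (I : Set (Set X)) (hI : IsIdeal I) (h : ⋃₀ I ∉ I) :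
    cofinStar I = ((add I).ord : WithTop Ordinal.{u}) := by
  apply le_antisymm
  · exact iInf₂_le (f := fun (γ : Ordinal.{u}) (_ : ∃ F, IsSeq I γ F) => (γ : WithTop Ordinal.{u}))
      (add I).ord (exists_seq hI h)
  · refine le_iInf₂ fun γ hγ => ?_
    obtain ⟨F, hF⟩ := hγ
    exact WithTop.coe_le_coe.2 (le_length hF)

end Pool.Agent.Results.MP_66ab92_lc.CofinStar
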