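import Pool.Agent.V11147.CofC

namespace Pool.Agent.Results.MP_66ab92_lc.PartA

open Pool.Agent.V11147.Cof

theorem result : IsBorelSigmaIdeal ND ∧
    (∃ γ ≤ bNum.ord, Order.IsSuccLimit γ ∧ HasSeq SubClosed ND γ) ∧
    (∀ γ : Ordinal.{0}, Order.IsSuccLimit γ → HasSeq IsIdeal ND γ → gNum ≤ γ.card) ∧
    (bNum < gNum → LeastLT (HasSeq SubClosed ND) (HasSeq IsIdeal ND)) :=
  ⟨ND_ideal, chainA, fun _ hl hs => not_lt.mp fun hc => no_chain hl hc hs, partA⟩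

end Pool.Agent.Results.MP_66ab92_lc.PartA
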