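import Pool.Agent.V11147.CofG

namespace Pool.Agent.Results.MP_66ab92_lc.PartC

open Pool.Agent.V11147.Cof

theorem result :
    (IsBorelSigmaIdeal Ctb ∧ HasSeq IsSigmaIdeal Ctb (Ordinal.omega 1) ∧
      (∀ γ : Ordinal.{0}, Order.IsSuccLimit γ → ¬ HasSeqPlus Ctb γ) ∧
      LeastLT (HasSeq IsSigmaIdeal Ctb) (HasSeqPlus Ctb)) ∧
    (IsBorelSigmaIdeal MX ∧ HasSeq IsSigmaIdeal MX (Ordinal.omega 1) ∧
      (∃ γ : Ordinal.{0}, Order.IsSuccLimit γ ∧ HasSeqPlus MX γ) ∧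
      (∀ γ : Ordinal.{0}, Order.IsSuccLimit γ → HasSeqPlus MX γ → gNum ≤ γ.card) ∧
      (Cardinal.aleph 1 < gNum → LeastLT (HasSeq IsSigmaIdeal MX) (HasSeqPlus MX))) :=
  ⟨⟨Ctb_ideal, Ctb_short, fun _ h => Ctb_plus h, partC⟩, ⟨MX_ideal, MX_short, MX_plus_exists,
    fun _ hl hs => not_lt.mp fun hc => MX_plus_lower hl hc hs, partC2⟩⟩

end Pool.Agent.Results.MP_66ab92_lc.PartC
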